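import Pool.Agent.Lib.MP_e5ca60_gt.Final

/-!
A fifth integral Lagrangian torus in `P(2+ε, 2+ε)` which is not Hamiltonian isotopic to `L_{1,1}`.
-/

namespace Pool.Agent.Results.MP_e5ca60_gt.FifthTorus

open MPe5ca60

/-- For every `ε > 0` the polydisk `P(2+ε, 2+ε)` contains an integral Lagrangian torus `L` which is
disjoint from the four product tori `L_{1,1}, L_{1,2}, L_{2,1}, L_{2,2}` and which is not
Hamiltonian isotopic to `L_{1,1}` (neither in `P(2+ε, 2+ε)` nor in `ℂ²`, nor in any subset `W` of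
`ℂ²`). Moreover `L` has the area class `(2, 1)` and the Maslov class `(2, 2)` of the product torus
`L_{2,1}`: in particular it is not monotone. -/
theorem result (ε : ℝ) (hε : 0 < ε) : ∃ L : Set (ℂ × ℂ), IsLagTorus L ∧ IsIntegral L ∧
    L ⊆ polydisk (2 + ε) (2 + ε) ∧ Disjoint L (prodTorus 1 1) ∧ Disjoint L (prodTorus 1 2) ∧
    Disjoint L (prodTorus 2 1) ∧ Disjoint L (prodTorus 2 2) ∧
    (∀ W : Set (ℂ × ℂ), ¬ HamIsotopic W (prodTorus 1 1) L) ∧
    ∃ e : ℝ × ℝ → ℂ × ℂ, IsLagTorusParam e ∧ Set.range e = L ∧ HasArea e (2, 1) ∧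
      HasIndex (Dsq e) (2, 2) :=
  main hε

end Pool.Agent.Results.MP_e5ca60_gt.FifthTorus
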